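import Pool.Agent.X219.CR.Big

/-!
MP_04fd10_lc, Q1 (as posed, for arbitrary countable Borel equivalence relations): the answer is no.

`CBER E` : `E` is an equivalence relation, Borel as a subset of `X × X`, with countable classes.
`RealizedOn E K` : there are a countable group `G` acting on `K` by continuous maps and a Borel
bijection `f : X ≃ K` with Borel inverse such that `x E y` iff `f y` is in the orbit of `f x`.
`CompactRealizable E` : `RealizedOn E K` for some compact metrizable space `K`.
-/

open Set

namespace Pool.Agent.Results.MP_04fd10_lc.NotAlwaysCantor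

open Pool.Agent.X219.CR

/-- Cantor space has no isolated points. -/
theorem perfect_cantor : PerfectSpace (ℕ → Bool) := by
  rw [perfectSpace_iff_forall_not_isolated]
  intro x
  rw [Filter.neBot_iff]
  intro h
  have h1 : IsOpen ({x} : Set (ℕ → Bool)) := (isOpen_singleton_iff_punctured_nhds x).2 h
  have hk : ({x} : Set (ℕ → Bool)) ∈ nhds x := h1.mem_nhds rfl
  rw [nhds_pi, Filter.mem_pi] at hk
  obtain ⟨I, hI, t, ht, hsub⟩ := hk
  obtain ⟨n, hn⟩ := hI.exists_notMem
  have hmem : Function.update x n (!x n) ∈ I.pi t := by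
    intro i hi
    have hne : i ≠ n := fun h => hn (h ▸ hi)
    rw [Function.update_of_ne hne]
    exact mem_of_mem_nhds (ht i)
  have h2 := hsub hmem
  have h3 := congrFun (mem_singleton_iff.1 h2) n
  simp at h3

theorem result :
    -- obstruction: number of points in large classes for a realization on a perfect space
    (∀ (X : Type) (_ : MeasurableSpace X) (E : X → X → Prop) (K : Type) (_ : TopologicalSpace K)
        (_ : T2Space K) (_ : BaireSpace K) (_ : PerfectSpace K), RealizedOn E K →
        ∀ n : ℕ, {x | (n : ℕ∞) < {y | E x y}.encard} = ∅ ∨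
          ¬ {x | (n : ℕ∞) < {y | E x y}.encard}.Countable) ∧
    -- relations whose nontrivial classes have a countable nonempty union
    (∀ (X : Type) (_ : MeasurableSpace X) (_ : StandardBorelSpace X) (E : X → X → Prop),
        ¬ Countable X → CBER E → {x | ∃ y, E x y ∧ y ≠ x}.Nonempty →
        {x | ∃ y, E x y ∧ y ≠ x}.Countable →
        CompactRealizable E ∧ ¬ RealizedOn E (ℕ → Bool)) ∧
    -- relations all of whose classes are as large as one likes
    (∀ n : ℕ, 1 ≤ n →
      ∃ (X : Type) (_ : MeasurableSpace X) (_ : StandardBorelSpace X) (E : X → X → Prop),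
        ¬ Countable X ∧ CBER E ∧ (∀ x, (n : ℕ∞) ≤ {y | E x y}.encard) ∧ CompactRealizable E ∧
          ¬ RealizedOn E (ℕ → Bool)) := by
  have hP : PerfectSpace (ℕ → Bool) := perfect_cantor
  refine ⟨?_, ?_, ?_⟩
  · intro X _ E K _ _ _ _ h n
    exact obstruction h n
  · intro X _ _ E hX hE hne hc
    refine ⟨compactRealizable_of_countable_part hX hE.equiv hc, fun h => ?_⟩
    have heq : {x | ((1 : ℕ) : ℕ∞) < {y | E x y}.encard} = {x | ∃ y, E x y ∧ y ≠ x} := by
      ext x
      simp only [mem_ofPred_eq, Nat.cast_one]
      rw [Set.one_lt_encard_iff]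
      constructor
      · rintro ⟨a, b, ha, hb, hab⟩
        by_cases h1 : a = x
        · exact ⟨b, hb, fun h2 => hab (h1.trans h2.symm)⟩
        · exact ⟨a, ha, h1⟩
      · rintro ⟨y, hy, hyx⟩
        exact ⟨x, y, hE.equiv.refl x, hy, fun h => hyx h.symm⟩
    rcases obstruction h 1 with h1 | h1
    · rw [heq] at h1
      exact hne.ne_empty h1
    · rw [heq] at h1
      exact h1 hc
  · intro n hn
    obtain ⟨X, mX, sX, E, hX, hE, hbig, hK, hne, hc⟩ := big_example n hn
    refine ⟨X, mX, sX, E, hX, hE, hbig, hK, fun h => ?_⟩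
    rcases obstruction h n with h1 | h1
    · exact hne.ne_empty h1
    · exact h1 hc

end Pool.Agent.Results.MP_04fd10_lc.NotAlwaysCantor
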